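import Mathlib

namespace Pool.Agent.H.MP_9acee6_nt
open PowerSeries Finset

section
variable {R : Type} [CommRing R]

noncomputable def geo (R : Type) [CommRing R] (q : ℕ) : R⟦X⟧ :=
  PowerSeries.mk fun j => if q ∣ j then 1 else 0

lemma geo_mul (m : ℕ) (hm : m ≠ 0) : geo R m * (1 - X ^ m) = 1 := by
  ext j
  rw [mul_sub, mul_one, map_sub, coeff_mul_X_pow', coeff_one]
  simp only [geo, coeff_mk]
  by_cases h : m ≤ j
  · have : j ≠ 0 := by omega
    simp [h, this, Nat.dvd_sub_iff_left h dvd_rfl]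
  · rcases Nat.eq_zero_or_pos j with rfl | hj
    · simp [h]
    · have : ¬ m ∣ j := fun d => h (Nat.le_of_dvd hj d)
      simp [h, this, hj.ne']

def LD (F U : R⟦X⟧) : Prop := X * d⁄dX R F = U * F

lemma LD.mul {F G U V : R⟦X⟧} (h : LD F U) (k : LD G V) : LD (F * G) (U + V) := by
  unfold LD at *
  rw [Derivation.leibniz, smul_eq_mul, smul_eq_mul]
  linear_combination G * h + F * k

lemma LD.pow {F U : R⟦X⟧} (h : LD F U) (n : ℕ) : LD (F ^ n) (n * U) := by
  induction n with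
  | zero => simp [LD]
  | succ n ih => rw [pow_succ]; convert ih.mul h using 1; push_cast; ring

lemma LD.prod (F U : ℕ → R⟦X⟧) (h : ∀ i, LD (F i) (U i)) (N : ℕ) :
    LD (∏ i ∈ range N, F i) (∑ i ∈ range N, U i) := by
  induction N with
  | zero => simp [LD]
  | succ n ih => rw [prod_range_succ, sum_range_succ]; exact ih.mul (h n)

lemma LD_geo (q : ℕ) (hq : q ≠ 0) : LD (geo R q) (q * (geo R q - 1)) := by
  have h := geo_mul (R := R) q hq
  have h2 := congrArg (d⁄dX R) h
  rw [Derivation.leibniz, map_sub, Derivation.leibniz_pow] at h2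
  simp only [Derivation.map_one_eq_zero, derivative_X, smul_eq_mul, nsmul_eq_mul] at h2
  obtain ⟨r, rfl⟩ : ∃ r, q = r + 1 := ⟨q - 1, by omega⟩
  unfold LD
  simp only [Nat.add_sub_cancel] at h2
  generalize geo R (r + 1) = g at *
  generalize d⁄dX R g = g' at *
  linear_combination (g * X) * h2 - (X * g' + ((r + 1 : ℕ) : R⟦X⟧) * g) * h

lemma coeff_th (F : R⟦X⟧) (n : ℕ) : coeff n (X * d⁄dX R F) = n * coeff n F := by
  cases n with
  | zero => simp
  | succ n => rw [coeff_succ_X_mul, coeff_derivative]; push_cast; ring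

lemma uniq [IsDomain R] [CharZero R] (D U Z : R⟦X⟧) (N : ℕ) (h0 : coeff 0 D = 0)
    (hU : coeff 0 U = 0) (h : X * d⁄dX R D = U * D + X ^ (N + 1) * Z) :
    ∀ n ≤ N, coeff n D = 0 := by
  intro n
  induction n using Nat.strong_induction_on with
  | _ n ih =>
    intro hn
    rcases Nat.eq_zero_or_pos n with rfl | hp
    · exact h0
    have := congrArg (coeff n) h
    rw [coeff_th, map_add, coeff_X_pow_mul', if_neg (by omega), add_zero, coeff_mul,
      sum_eq_zero] at this
    · exact (mul_eq_zero.1 this).resolve_left (by exact_mod_cast hp.ne')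
    · rintro ⟨i, j⟩ hij
      rw [HasAntidiagonal.mem_antidiagonal] at hij
      rcases Nat.eq_zero_or_pos i with rfl | hi
      · simp only [hU, zero_mul]
      · simp only at hij ⊢
        rw [ih j (by omega) (by omega), mul_zero]

lemma expand_exp [IsDomain R] [CharZero R] (H T W : R⟦X⟧) (c : R) (d : ℕ → R) (N : ℕ)
    (hH : LD H T) (H0 : coeff 0 H = 1) (W0 : coeff 0 W = 0) (d0 : d 0 = 1)
    (hd : ∀ r : ℕ, (r + 1) * d (r + 1) = c * d r)
    (hT : ∀ j ≤ N, coeff j T = c * (j * coeff j W)) :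
    coeff N H = ∑ r ∈ range (N + 1), d r * coeff N (W ^ r) := by
  set U := C c * (X * d⁄dX R W) with hU
  have hE : ∀ M, X * d⁄dX R (∑ r ∈ range (M + 1), C (d r) * W ^ r) =
      U * ∑ r ∈ range M, C (d r) * W ^ r := by
    intro M
    induction M with
    | zero => simp
    | succ M ih =>
      rw [sum_range_succ, map_add, mul_add, ih, sum_range_succ, Derivation.leibniz,
        Derivation.leibniz_pow, derivative_C]
      have := congrArg (C (R := R)) (hd M)
      simp only [map_mul, map_add, map_natCast, map_one] at this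
      simp only [smul_eq_mul, nsmul_eq_mul, Nat.add_sub_cancel, hU]
      push_cast
      linear_combination (X * W ^ M * d⁄dX R W) * this
  obtain ⟨Z, hZ⟩ : X ^ (N + 1) ∣ T - U := by
    rw [X_pow_dvd_iff]
    intro j hj
    rw [map_sub, hT j (by omega), hU, coeff_C_mul, coeff_th, sub_self]
  obtain ⟨W1, hW⟩ : X ∣ W := by rw [X_dvd_iff]; simpa using W0
  have := uniq (H - ∑ r ∈ range (N + 1), C (d r) * W ^ r) U
    (Z * H + C c * d⁄dX R W * C (d N) * W1 ^ N) N ?_ (by simp [hU]) ?_ N le_rfl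
  · rw [map_sub, sub_eq_zero, map_sum] at this
    simpa only [coeff_C_mul] using this
  · rw [map_sub, H0, map_sum, sum_range_succ', sum_eq_zero]
    · simp [d0]
    · intro r _
      rw [hW]; simp
  · rw [map_sub, mul_sub, hE, hH, sum_range_succ]
    have : W ^ N = X ^ N * W1 ^ N := by rw [hW, mul_pow]
    rw [this]
    linear_combination H * hZ

end

variable (p : ℕ) [hp : Fact p.Prime]

def oc (n : ℕ) : ℕ := n / p ^ padicValNat p n

lemma oc_mul (n : ℕ) : p ^ padicValNat p n * oc p n = n :=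
  Nat.mul_div_cancel' pow_padicValNat_dvd

lemma oc_nd {n : ℕ} (hn : n ≠ 0) : ¬ p ∣ oc p n := fun h =>
  pow_succ_padicValNat_not_dvd (p := p) hn (by
    conv_rhs => rw [← oc_mul p n]
    rw [pow_succ]; exact Nat.mul_dvd_mul_left _ h)

lemma oc_unit {n : ℕ} (hn : n ≠ 0) : IsUnit ((oc p n : ℕ) : ℤ_[p]) :=
  PadicInt.isUnit_iff.2 (PadicInt.norm_natCast_eq_one_iff.2
    ((Nat.Prime.coprime_iff_not_dvd hp.out).2 (oc_nd p hn)))

noncomputable def iv (n : ℕ) : ℤ_[p] := Ring.inverse ((oc p n : ℕ) : ℤ_[p])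

lemma oc_iv {n : ℕ} (hn : n ≠ 0) : (oc p n : ℤ_[p]) * iv p n = 1 :=
  Ring.mul_inverse_cancel _ (oc_unit p hn)

lemma cast_eq (n : ℕ) : (n : ℤ_[p]) = p ^ padicValNat p n * oc p n := by
  conv_lhs => rw [← oc_mul p n]
  push_cast; rfl

noncomputable def w (a n : ℕ) : ℤ_[p] :=
  if n = 0 then 0 else p ^ (a - 1 - padicValNat p n % a) * iv p n

noncomputable def dd (m r : ℕ) : ℤ_[p] :=
  m ^ r * p ^ (r - padicValNat p r.factorial) * iv p r.factorial

lemma vf (r : ℕ) : padicValNat p r.factorial ≤ r := by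
  rcases Nat.eq_zero_or_pos r with rfl | h
  · simp
  · exact (padicValNat_factorial_lt_of_ne_zero p h.ne').le

lemma dd_fac (m r : ℕ) : (r.factorial : ℤ_[p]) * dd p m r = (m * p) ^ r := by
  obtain ⟨t, ht⟩ := Nat.exists_eq_add_of_le (vf p r)
  rw [cast_eq p r.factorial, dd, show r - padicValNat p r.factorial = t by omega, mul_pow]
  have : (p : ℤ_[p]) ^ r = p ^ padicValNat p r.factorial * p ^ t := by rw [← pow_add, ← ht]
  rw [this]
  linear_combination (m ^ r * p ^ padicValNat p r.factorial * p ^ t : ℤ_[p]) *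
    oc_iv p r.factorial_ne_zero

lemma dd_rec (m r : ℕ) : (r + 1) * dd p m (r + 1) = (m * p) * dd p m r := by
  have a := dd_fac p m (r + 1)
  have b := dd_fac p m r
  rw [Nat.factorial_succ] at a
  push_cast at a
  have : (r.factorial : ℤ_[p]) ≠ 0 := by exact_mod_cast r.factorial_ne_zero
  apply mul_left_cancel₀ this
  linear_combination a - (m * p : ℤ_[p]) * b

noncomputable def HH (R : Type) [CommRing R] (k m N : ℕ) : R⟦X⟧ :=
  geo R 1 ^ m * ∏ i ∈ range (N + 1), geo R (k ^ i) ^ (m * (k - 1))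

lemma expansion (a m N : ℕ) (ha : 1 ≤ a) :
    ((coeff N (HH ℤ (p ^ a) m N) : ℤ) : ℤ_[p]) =
      ∑ r ∈ range (N + 1), dd p m r * coeff N ((PowerSeries.mk (w p a)) ^ r) := by
  have hk : ∀ i, (p ^ a) ^ i ≠ 0 := fun i => by have := hp.out.pos; positivity
  have g : ∀ q, PowerSeries.map (Int.castRingHom ℤ_[p]) (geo ℤ q) = geo ℤ_[p] q := fun q => by
    ext j; simp [geo]
  have e : ((coeff N (HH ℤ (p ^ a) m N) : ℤ) : ℤ_[p]) = coeff N (HH ℤ_[p] (p ^ a) m N) := by
    rw [← eq_intCast (Int.castRingHom ℤ_[p]), ← coeff_map]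
    simp only [HH, map_mul, map_pow, map_prod, g]
  rw [e]
  refine expand_exp (R := ℤ_[p]) _ _ (PowerSeries.mk (w p a)) (m * p) (dd p m) N
    (((LD_geo (R := ℤ_[p]) 1 one_ne_zero).pow m).mul
    (LD.prod _ _ (fun i => (LD_geo (R := ℤ_[p]) _ (hk i)).pow (m * (p ^ a - 1))) (N + 1))) ?_
    (by simp [w]) ?_ (dd_rec p m) ?_
  · simp [HH, geo, map_prod, ← coeff_zero_eq_constantCoeff_apply (PowerSeries.mk _)]
  · simpa using dd_fac p m 0
  intro j hj
  have cc : ∀ (x : ℕ) (f : ℤ_[p]⟦X⟧), coeff j ((x : ℤ_[p]⟦X⟧) * f) = x * coeff j f := fun x f => by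
    rw [← nsmul_eq_mul, map_nsmul, nsmul_eq_mul]
  simp only [map_add, map_sum, cc, map_sub, geo, coeff_mk, coeff_one, w]
  rcases Nat.eq_zero_or_pos j with rfl | hj0
  · simp
  have hv : padicValNat p j < j := by
    have := Nat.le_of_dvd hj0 (pow_padicValNat_dvd (p := p))
    exact (Nat.lt_pow_self hp.out.one_lt).trans_le this
  have hd : ∀ i, (p ^ a) ^ i ∣ j ↔ i < padicValNat p j / a + 1 := fun i => by
    rw [← pow_mul, padicValNat_dvd_iff_le hj0.ne', Nat.lt_succ_iff, Nat.le_div_iff_mul_le ha,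
      mul_comm]
  simp only [hd, hj0.ne', if_false, one_dvd, if_true, sub_zero, mul_ite, mul_one, mul_zero]
  have hle : padicValNat p j / a + 1 ≤ N + 1 := by
    have := Nat.div_le_self (padicValNat p j) a; omega
  rw [← sum_filter, show (range (N + 1)).filter (· < padicValNat p j / a + 1) =
    range (padicValNat p j / a + 1) by ext i; simp; omega, ← mul_sum]
  have h1 : 1 ≤ p ^ a := Nat.one_le_pow _ _ hp.out.pos
  have gs := mul_geom_sum ((p : ℤ_[p]) ^ a) (padicValNat p j / a + 1)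
  have ex : ((p : ℤ_[p]) ^ a) ^ (padicValNat p j / a + 1) =
      p * p ^ padicValNat p j * p ^ (a - 1 - padicValNat p j % a) := by
    rw [← pow_mul, ← pow_succ', ← pow_add]
    congr 1
    have := Nat.div_add_mod (padicValNat p j) a
    have := Nat.mod_lt (padicValNat p j) ha
    rw [mul_add]; omega
  rw [ex] at gs
  rw [cast_eq p j]
  push_cast [h1]
  linear_combination (m : ℤ_[p]) * gs -
    (m * p * p ^ padicValNat p j * p ^ (a - 1 - padicValNat p j % a) : ℤ_[p]) * oc_iv p hj0.ne'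

lemma sum_mult {M : Type} [AddCommMonoid M] (q : ℕ) (hq : 0 < q) (f : ℕ → M) (c : ℕ) :
    ∑ i ∈ range (q * c), (if q ∣ i then f (i / q) else 0) = ∑ u ∈ range c, f u := by
  induction c with
  | zero => simp
  | succ c ih =>
    rw [mul_add_one, sum_range_add, ih, sum_range_succ]
    congr 1
    rw [sum_eq_single 0]
    · simp [Nat.mul_div_cancel_left _ hq]
    · intro x hx h0
      rw [if_neg]
      intro h
      have := Nat.le_of_dvd (by omega) ((Nat.dvd_add_right (dvd_mul_right q c)).1 h)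
      simp at hx; omega
    · intro h; simp at h; omega

lemma sum_per (e c : ℕ) :
    ∑ u ∈ range (p * c), (u : ZMod p) ^ e = c * ∑ x : ZMod p, x ^ e := by
  induction c with
  | zero => simp
  | succ c ih =>
    rw [mul_add_one, sum_range_add, ih, Nat.cast_succ, add_mul, one_mul]
    congr 1
    obtain ⟨q, rfl⟩ : ∃ q, p = q + 1 := ⟨p - 1, by have := hp.out.pos; omega⟩
    rw [sum_range]
    refine Fintype.sum_congr _ _ fun x => ?_
    have : ((q + 1 : ℕ) : ZMod (q + 1)) = 0 := ZMod.natCast_self _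
    rw [Nat.cast_add, Nat.cast_mul, this, zero_mul, zero_add]
    congr 1
    exact ZMod.natCast_zmod_val (n := q + 1) x

lemma val_eq {n s : ℕ} (h : p ^ s ∣ n) (h2 : ¬ p ∣ n / p ^ s) : padicValNat p n = s := by
  have hn : n ≠ 0 := by rintro rfl; simp at h2
  refine le_antisymm ?_ ((padicValNat_dvd_iff_le hn).1 h)
  by_contra hc
  apply h2
  rw [Nat.dvd_div_iff_mul_dvd h, ← pow_succ, padicValNat_dvd_iff_le hn]
  omega

lemma wbar (a s i : ℕ) (hs : s % a = a - 1) (h : p ^ s ∣ i) (h2 : ¬ p ∣ i / p ^ s) :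
    PadicInt.toZMod (w p a i) * ((i / p ^ s : ℕ) : ZMod p) = 1 := by
  have hn : i ≠ 0 := by rintro rfl; simp at h2
  have v := val_eq p h h2
  have := congrArg PadicInt.toZMod (oc_iv p hn)
  rw [map_mul, map_natCast, map_one, oc, v] at this
  rw [w, if_neg hn, v, hs, Nat.sub_self, pow_zero, one_mul, mul_comm, this]

lemma wzero (a i : ℕ) (ha : 1 ≤ a) (h : i = 0 ∨ padicValNat p i % a ≠ a - 1) :
    PadicInt.toZMod (w p a i) = 0 := by
  rw [w]
  split_ifs with h0
  · simp
  have := Nat.mod_lt (padicValNat p i) ha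
  rw [map_mul, map_pow, map_natCast, ZMod.natCast_self, zero_pow (by omega), zero_mul]

lemma sq_eq (E : ℕ) (hE0 : E ≠ 0) (hE : ∀ u : ZMod p, u ≠ 0 → u ^ E * u ^ 2 = 1) (a n : ℕ)
    (ha : 2 ≤ a) (hn : n ≠ 0) (hb : padicValNat p n % a = 0) :
    PadicInt.toZMod (coeff n ((PowerSeries.mk (w p a)) ^ 2)) =
      -∑ s ∈ (range (padicValNat p n)).filter (· % a = a - 1),
        ((n / p ^ (s + 1) : ℕ) : ZMod p) * ∑ x : ZMod p, x ^ E := by
  rw [sq, coeff_mul, Finset.Nat.sum_antidiagonal_eq_sum_range_succ_mk, map_sum,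
    sum_range_succ]
  simp only [coeff_mk, map_mul]
  rw [Nat.sub_self, wzero p a 0 (by omega) (.inl rfl), mul_zero, add_zero]
  set t := padicValNat p n with ht
  have key : ∀ i ∈ range n, PadicInt.toZMod (w p a i) * PadicInt.toZMod (w p a (n - i)) =
      -∑ s ∈ (range t).filter (· % a = a - 1),
        if p ^ s ∣ i then ((i / p ^ s : ℕ) : ZMod p) ^ E else 0 := by
    intro i hi
    rw [mem_range] at hi
    have z : ∀ s, ¬ (p ^ s ∣ i ∧ ¬ p ∣ i / p ^ s) →
        (if p ^ s ∣ i then ((i / p ^ s : ℕ) : ZMod p) ^ E else 0) = 0 := by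
      intro s hs
      split_ifs with h
      · rw [(ZMod.natCast_eq_zero_iff _ _).2 (by tauto), zero_pow hE0]
      · rfl
    by_cases hc : ∃ s, s < t ∧ s % a = a - 1 ∧ p ^ s ∣ i ∧ ¬ p ∣ i / p ^ s
    · obtain ⟨s, h1, h2, h3, h4⟩ := hc
      rw [sum_eq_single s (fun s' _ hne => z s' fun h =>
        hne ((val_eq p h.1 h.2).symm.trans (val_eq p h3 h4))) (fun h => by simp [h1, h2] at h),
        if_pos h3]
      obtain ⟨c, hc⟩ : p ^ (s + 1) ∣ n := (padicValNat_dvd_iff_le hn).2 (by omega)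
      obtain ⟨u, rfl⟩ := h3
      have hp0 : 0 < p ^ s := pow_pos hp.out.pos _
      have hu : u < p * c := by
        rw [hc, pow_succ, mul_assoc] at hi; exact lt_of_mul_lt_mul_left hi (Nat.zero_le _)
      have e : n - p ^ s * u = p ^ s * (p * c - u) := by
        rw [hc, Nat.mul_sub, pow_succ, mul_assoc]
      have a1 := wbar p a s _ h2 (dvd_mul_right _ u) h4
      rw [Nat.mul_div_cancel_left _ hp0] at h4 a1 ⊢
      have a2 := wbar p a s (p ^ s * (p * c - u)) h2 (dvd_mul_right _ _) (by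
        rw [Nat.mul_div_cancel_left _ hp0]
        intro h
        exact h4 ((Nat.dvd_sub_iff_right hu.le (dvd_mul_right p c)).1 h))
      rw [Nat.mul_div_cancel_left _ hp0, Nat.cast_sub hu.le, Nat.cast_mul, ZMod.natCast_self,
        zero_mul, zero_sub] at a2
      have hu0 : (u : ZMod p) ≠ 0 := fun h => h4 ((ZMod.natCast_eq_zero_iff _ _).1 h)
      have f := hE _ hu0
      rw [e]
      generalize PadicInt.toZMod (w p a (p ^ s * u)) = x at *
      generalize PadicInt.toZMod (w p a (p ^ s * (p * c - u))) = y at *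
      linear_combination (-x * y) * f + (-(u : ZMod p) ^ E * x * u) * a2 -
        (u : ZMod p) ^ E * a1
    · rw [sum_eq_zero fun s hs => z s fun h => hc ⟨s, by simpa using (mem_filter.1 hs).1,
        (mem_filter.1 hs).2, h⟩, neg_zero]
      by_cases h0 : i = 0 ∨ padicValNat p i % a ≠ a - 1
      · rw [wzero p a i (by omega) h0, zero_mul]
      push Not at h0
      have h1 : t < padicValNat p i := by
        by_contra h1
        have : padicValNat p i ≠ t := fun e => by rw [e] at h0; omega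
        exact hc ⟨_, by omega, h0.2, pow_padicValNat_dvd, oc_nd p h0.1⟩
      have h2 : padicValNat p (n - i) = t := by
        have d1 : p ^ (t + 1) ∣ i := (padicValNat_dvd_iff_le h0.1).2 h1
        refine le_antisymm ?_ ((padicValNat_dvd_iff_le (by omega)).1
          (Nat.dvd_sub pow_padicValNat_dvd ((pow_dvd_pow _ (by omega)).trans d1)))
        by_contra h3
        have d2 : p ^ (t + 1) ∣ n - i := (padicValNat_dvd_iff_le (by omega)).2 (by omega)
        have := dvd_add d2 d1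
        rw [Nat.sub_add_cancel hi.le] at this
        exact pow_succ_padicValNat_not_dvd hn this
      rw [wzero p a (n - i) (by omega) (.inr (by rw [h2, hb]; omega)), mul_zero]
  rw [sum_congr rfl key, sum_neg_distrib, sum_comm]
  refine congrArg _ (sum_congr rfl fun s hs => ?_)
  obtain ⟨c, hc⟩ : p ^ (s + 1) ∣ n :=
    (padicValNat_dvd_iff_le hn).2 (by have := mem_range.1 (mem_filter.1 hs).1; omega)
  rw [hc, Nat.mul_div_cancel_left _ (pow_pos hp.out.pos _), pow_succ, mul_assoc,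
    sum_mult _ (pow_pos hp.out.pos _) (fun u => (u : ZMod p) ^ E), sum_per p]

lemma dvd_iff (x : ℤ_[p]) : (p : ℤ_[p]) ∣ x ↔ PadicInt.toZMod x = 0 := by
  rw [← Ideal.mem_span_singleton, ← PadicInt.maximalIdeal_eq_span_p, ← PadicInt.ker_toZMod,
    RingHom.mem_ker]

lemma sq_dvd (h5 : 5 ≤ p) (a n : ℕ) (ha : 2 ≤ a) (hn : n ≠ 0) (hb : padicValNat p n % a = 0) :
    (p : ℤ_[p]) ∣ coeff n ((PowerSeries.mk (w p a)) ^ 2) := by
  rw [dvd_iff, sq_eq p (p - 3) (by omega) (fun u hu => by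
    rw [← pow_add, show p - 3 + 2 = p - 1 by omega, ZMod.pow_card_sub_one_eq_one hu]) a n ha hn hb,
    FiniteField.sum_pow_lt_card_sub_one (ZMod p) (p - 3) (by rw [ZMod.card]; omega)]
  simp

lemma frob (f : ℤ_[p]⟦X⟧) (n : ℕ) : PadicInt.toZMod (coeff n (f ^ p)) =
    if p ∣ n then PadicInt.toZMod (coeff (n / p) f) else 0 := by
  have := MvPowerSeries.map_frobenius_expand p hp.out.ne_zero
    (f := PowerSeries.map (PadicInt.toZMod (p := p)) f)
  rw [ZMod.frobenius_zmod, MvPowerSeries.map_id] at this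
  rw [← coeff_map, map_pow, ← coeff_map, ← coeff_expand p hp.out.ne_zero]
  exact congrArg _ this.symm

lemma fin_val {x : ℤ} {v : ℕ} {y : ℤ_[p]} (e2 : (x : ℤ_[p]) = p ^ v * y)
    (hy : ¬ (p : ℤ_[p]) ∣ y) : padicValInt p x = v := by
  have p0 : (p : ℤ_[p]) ≠ 0 := by exact_mod_cast hp.out.ne_zero
  have c1 : (p : ℤ) ^ v ∣ x := (PadicInt.pow_p_dvd_int_iff _ _).1 (e2 ▸ dvd_mul_right _ _)
  have c2 : ¬ (p : ℤ) ^ (v + 1) ∣ x := by
    rwa [← PadicInt.pow_p_dvd_int_iff, e2, pow_succ, mul_dvd_mul_iff_left (pow_ne_zero _ p0)]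
  rw [padicValInt_dvd_iff] at c1 c2
  omega

lemma main (a m n : ℕ) (ha : 2 ≤ a) (hm : m ≠ 0) (hn : n ≠ 0)
    (h : a ≤ padicValNat p m ∨ (3 ≤ p ∧ a ≤ padicValNat p m + 1 + padicValNat p n % a) ∨
      (5 ≤ p ∧ a ≤ padicValNat p m + 2)) :
    padicValInt p (coeff n (HH ℤ (p ^ a) m n)) = padicValNat p m + a - padicValNat p n % a := by
  have e := expansion p a m n (by omega)
  set μ := padicValNat p m with hμ
  set b := padicValNat p n % a with hb
  have hba : b < a := Nat.mod_lt _ (by omega)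
  obtain ⟨n, rfl⟩ : ∃ k, n = k + 1 := ⟨n - 1, by omega⟩
  rw [sum_range_succ', sum_range_succ'] at e
  have d1 : dd p m 1 = m * p := by simpa using dd_fac p m 1
  have hmc := cast_eq p m
  have hdd : ∀ r, (p : ℤ_[p]) ^ (μ * r + (r - padicValNat p r.factorial)) ∣ dd p m r := fun r => by
    rw [dd, hmc, mul_pow, ← pow_mul, pow_add]
    exact ⟨(oc p m : ℤ_[p]) ^ r * iv p r.factorial, by ring⟩
  have hi : (p : ℤ_[p]) ^ (μ + a - b + 1) ∣ ∑ r ∈ range n,
      dd p m (r + 1 + 1) * coeff (n + 1) ((PowerSeries.mk (w p a)) ^ (r + 1 + 1)) := by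
    refine dvd_sum fun r _ => ?_
    have f := sub_one_mul_padicValNat_factorial_lt_of_ne_zero p (n := r + 1 + 1) (by omega)
    have p2 := hp.out.two_le
    set v := padicValNat p (r + 1 + 1).factorial
    have g : μ * (r + 1 + 1) = μ * r + 2 * μ := by ring
    by_cases hc : μ + a - b + 1 ≤ μ * (r + 1 + 1) + (r + 1 + 1 - v)
    · exact ((pow_dvd_pow _ hc).trans (hdd _)).mul_right _
    have f1 : 1 * v ≤ (p - 1) * v := Nat.mul_le_mul_right _ (by omega)
    rcases h with h | ⟨h3, h⟩ | ⟨h5, h⟩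
    · omega
    · have : 2 * v ≤ (p - 1) * v := Nat.mul_le_mul_right _ (by omega)
      omega
    · have : 4 * v ≤ (p - 1) * v := Nat.mul_le_mul_right _ (by omega)
      obtain rfl : r = 0 := by omega
      have := mul_dvd_mul (hdd (0 + 1 + 1)) (sq_dvd p h5 a (n + 1) ha hn (by omega))
      rw [← pow_succ] at this
      exact (pow_dvd_pow _ (by omega)).trans this
  obtain ⟨z, hz⟩ := hi
  have e2 : ((coeff (n + 1) (HH ℤ (p ^ a) m (n + 1)) : ℤ) : ℤ_[p]) =
      p ^ (μ + a - b) * (oc p m * iv p (n + 1) + p * z) := by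
    rw [e, hz, zero_add, d1, pow_one, pow_zero, coeff_mk, coeff_one, if_neg hn, w, if_neg hn, hmc,
      ← hb, show μ + a - b = μ + 1 + (a - 1 - b) by omega]
    ring
  have p0 : (p : ℤ_[p]) ≠ 0 := by exact_mod_cast hp.out.ne_zero
  have c1 : (p : ℤ) ^ (μ + a - b) ∣ coeff (n + 1) (HH ℤ (p ^ a) m (n + 1)) :=
    (PadicInt.pow_p_dvd_int_iff _ _).1 (e2 ▸ dvd_mul_right _ _)
  have c2 : ¬ (p : ℤ) ^ (μ + a - b + 1) ∣ coeff (n + 1) (HH ℤ (p ^ a) m (n + 1)) := by
    rw [← PadicInt.pow_p_dvd_int_iff, e2, pow_succ, mul_dvd_mul_iff_left (pow_ne_zero _ p0),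
      dvd_add_left (dvd_mul_right _ _)]
    intro hd
    have u : IsUnit ((oc p m : ℤ_[p]) * iv p (n + 1)) :=
      (oc_unit p hm).mul (IsUnit.of_mul_eq_one_right _ (oc_iv p hn))
    exact PadicInt.prime_p.not_unit (isUnit_of_dvd_unit hd u)
  rw [padicValInt_dvd_iff] at c1 c2
  omega

omit hp in
lemma z1 : ∀ u : ZMod 3, u ≠ 0 → u ^ 2 * u ^ 2 = 1 := by decide

omit hp in
lemma z2 : ∀ a : ZMod 3, (((0 + 1 + 1).factorial / 3 ^ 0 : ℕ) : ZMod 3) * a = 1 →
    ∀ b : ZMod 3, ((Nat.factorial 3 / 3 ^ 1 : ℕ) : ZMod 3) * b = 1 →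
    ∀ c d u : ZMod 3, u * c = 1 → d * u = 1 → ∀ M : ZMod 3, M ≠ 0 →
      ¬M * c + (0 + M ^ 3 * 0 ^ (0 + 1 - 1) * b * d +
        M ^ (0 + 1 + 1) * 0 ^ (0 - 0) * a * -(u * ∑ x : ZMod 3, x ^ 2)) = 0 := by decide

lemma main3 (h3 : p = 3) (m n : ℕ) (hm : ¬ p ∣ m) (hn : n ≠ 0) (hb : padicValNat p n % 2 = 0) :
    padicValInt p (coeff n (HH ℤ (p ^ 2) m n)) = 2 := by
  have e := expansion p 2 m n (by omega)
  obtain ⟨n, rfl⟩ : ∃ k, n = k + 1 := ⟨n - 1, by omega⟩
  rw [sum_range_succ', sum_range_succ'] at e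
  have d1 : dd p m 1 = m * p := by simpa using dd_fac p m 1
  have vf2 : ∀ r, 2 * padicValNat p (r + 1 + 1).factorial < r + 1 + 1 := fun r => by
    have f := sub_one_mul_padicValNat_factorial_lt_of_ne_zero p (n := r + 1 + 1) (by omega)
    rwa [show p - 1 = 2 by omega] at f
  refine fin_val p (y := m * iv p (n + 1) + ∑ r ∈ range n,
    m ^ (r + 1 + 1) * p ^ (r - padicValNat p (r + 1 + 1).factorial) * iv p (r + 1 + 1).factorial *
      coeff (n + 1) ((PowerSeries.mk (w p 2)) ^ (r + 1 + 1))) ?_ ?_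
  · rw [e, zero_add, d1, pow_one, pow_zero, coeff_mk, coeff_one, if_neg hn, w, if_neg hn, hb,
      mul_add, mul_sum, sum_congr rfl fun r _ => (?_ : _ = _)]
    · ring
    · have := vf2 r
      rw [dd, show r + 1 + 1 - padicValNat p (r + 1 + 1).factorial =
        2 + (r - padicValNat p (r + 1 + 1).factorial) by omega]
      ring
  rw [dvd_iff, map_add, map_sum]
  simp only [map_mul, map_pow, map_natCast, ZMod.natCast_self]
  have big : ∀ r, 2 ≤ r → (0 : ZMod p) ^ (r - padicValNat p (r + 1 + 1).factorial) = 0 :=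
    fun r hr => zero_pow (by have := vf2 r; omega)
  have s2 := sq_eq p 2 two_ne_zero (by subst h3; exact z1) 2 (n + 1) le_rfl hn hb
  have s3 := frob p (PowerSeries.mk (w p 2)) (n + 1)
  have i0 := congrArg PadicInt.toZMod (oc_iv p hn)
  rw [map_mul, map_natCast, map_one] at i0
  have m0 : (m : ZMod p) ≠ 0 := fun h => hm ((ZMod.natCast_eq_zero_iff _ _).1 h)
  by_cases ht : padicValNat p (n + 1) = 0
  · rw [sum_eq_zero, add_zero]
    · exact mul_ne_zero m0 (right_ne_zero_of_mul_eq_one i0)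
    intro r _
    rcases r with _ | _ | r
    · rw [s2, ht]; simp
    · rw [if_neg fun h => by
        have := (padicValNat_dvd_iff_le (p := p) (n := 1) hn).1 (by simpa using h); omega] at s3
      rw [show 0 + 1 + 1 + 1 = p by omega, s3, mul_zero]
    · rw [big _ (by omega)]; simp
  set t := padicValNat p (n + 1) with htt
  have hd : p ^ t ∣ n + 1 := pow_padicValNat_dvd
  have hn9 : 9 ≤ n + 1 := by
    have := Nat.le_of_dvd (by omega) ((pow_dvd_pow p (show 2 ≤ t by omega)).trans hd)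
    rw [h3] at this; omega
  obtain ⟨t', ht'⟩ : ∃ t', t = t' + 1 := ⟨t - 1, by omega⟩
  have dv : (n + 1) / p / p ^ t' = oc p (n + 1) := by
    rw [Nat.div_div_eq_div_mul, ← pow_succ', oc, ← htt, ht']
  have pd : p ∣ n + 1 := (dvd_pow_self p ht).trans hd
  have i3 := wbar p 2 t' ((n + 1) / p) (by omega)
    (by rw [Nat.dvd_div_iff_mul_dvd pd, ← pow_succ', ← ht']; exact hd)
    (by rw [dv]; exact oc_nd p hn)
  rw [dv] at i3
  rw [if_pos pd, coeff_mk] at s3
  rw [sum_eq_single t' (fun s hs hne => by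
      have := mem_range.1 (mem_filter.1 hs).1
      rw [(ZMod.natCast_eq_zero_iff _ _).2, zero_mul]
      rw [Nat.dvd_div_iff_mul_dvd ((pow_dvd_pow p (by omega)).trans hd), ← pow_succ]
      exact (pow_dvd_pow p (by omega)).trans hd)
    (fun h => absurd (mem_filter.2 ⟨mem_range.2 (by omega), by omega⟩) h), ← ht',
    show (n + 1) / p ^ t = oc p (n + 1) from rfl] at s2
  obtain ⟨n, rfl⟩ : ∃ k, n = k + 1 + 1 := ⟨n - 2, by omega⟩
  rw [sum_range_succ', sum_range_succ', sum_eq_zero fun r _ => by rw [big _ (by omega)]; simp,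
    s2, show 0 + 1 + 1 + 1 = p by omega, s3]
  have j2 := congrArg PadicInt.toZMod (oc_iv p (n := (0 + 1 + 1).factorial) (by decide))
  have j3 := congrArg PadicInt.toZMod (oc_iv p (n := p.factorial) p.factorial_ne_zero)
  rw [map_mul, map_natCast, map_one] at j2 j3
  have v2 : padicValNat p (0 + 1 + 1).factorial = 0 := by have := vf2 0; omega
  have v3 : padicValNat p p.factorial = 1 := by
    subst h3
    exact val_eq 3 (by decide) (by decide)
  rw [oc, v2] at j2
  rw [oc, v3] at j3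
  rw [v2, v3]
  generalize PadicInt.toZMod (iv p (0 + 1 + 1).factorial) = a at *
  generalize PadicInt.toZMod (iv p p.factorial) = b at *
  generalize PadicInt.toZMod (iv p (n + 1 + 1 + 1)) = c at *
  generalize PadicInt.toZMod (w p 2 ((n + 1 + 1 + 1) / p)) = d at *
  generalize ((oc p (n + 1 + 1 + 1) : ℕ) : ZMod p) = u at *
  generalize (m : ZMod p) = M at *
  subst h3
  clear e s2 s3 big vf2 d1
  revert a b c d u M
  exact z2

end Pool.Agent.H.MP_9acee6_nt
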