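import Pool.Agent.H.MP_9acee6_nt.A
import Pool.Agent.H.MP_b3d406_nt.B

namespace Pool.Agent.H.MP_9acee6_nt.Two

open PowerSeries Finset Pool.Agent.Lib.helper11.Mahler Pool.Agent.H.MP_918176_nt
  Pool.Agent.H.MP_53b42b_nt Pool.Agent.H.MP_b3d406_nt

def NN (f : ℤ⟦X⟧) : Prop := ∀ n, 0 ≤ coeff n f

lemma NN.mul {f g : ℤ⟦X⟧} (h : NN f) (k : NN g) : NN (f * g) := fun n => by
  rw [coeff_mul]; exact sum_nonneg fun _ _ => mul_nonneg (h _) (k _)

lemma NN_one : NN 1 := fun n => by rw [coeff_one]; split_ifs <;> simp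

lemma NN.pow {f : ℤ⟦X⟧} (h : NN f) (k : ℕ) : NN (f ^ k) := by
  induction k with
  | zero => simpa using NN_one
  | succ k ih => rw [pow_succ]; exact ih.mul h

lemma NN_geo (q : ℕ) : NN (Lib.helper11.Mahler.geo ℤ q) := fun n => by
  simp only [Lib.helper11.Mahler.geo, coeff_mk]; split_ifs <;> simp

lemma S_ne (m n : ℕ) (hm : 0 < m) : MP_b3d406_nt.S m n ≠ 0 := by
  obtain ⟨m, rfl⟩ : ∃ k, m = k + 1 := ⟨m - 1, by omega⟩
  rw [MP_b3d406_nt.S, MP_53b42b_nt.HH, pow_succ', mul_assoc, coeff_mul]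
  have hQ := ((NN_geo 1).pow m).mul (prod_induction
    (fun i => Lib.helper11.Mahler.geo ℤ (4 ^ i) ^ ((m + 1) * 3)) NN (fun _ _ => NN.mul) NN_one
    (s := range (n + 1)) fun i _ => (NN_geo _).pow _)
  refine (sum_pos' (fun _ _ => mul_nonneg (NN_geo 1 _) (hQ _)) ⟨(n, 0), by simp, ?_⟩).ne'
  simp [Lib.helper11.Mahler.geo, map_prod, ← coeff_zero_eq_constantCoeff_apply (PowerSeries.mk _)]

lemma val_congr (M : ℕ) (a b : ℤ) (h : a ≡ b [ZMOD 4 ^ M]) (ha : ¬ 4 ^ M ∣ a) :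
    padicValInt 2 a = padicValInt 2 b := by
  have hb : ¬ 4 ^ M ∣ b := fun d => ha (h.dvd_iff.2 d)
  have e : (4 : ℤ) ^ M = ((2 : ℕ) : ℤ) ^ (2 * M) := by rw [pow_mul]; norm_num
  have a0 : a ≠ 0 := by rintro rfl; simp at ha
  have b0 : b ≠ 0 := by rintro rfl; simp at hb
  rw [e] at h ha hb
  rw [padicValInt_dvd_iff] at ha hb
  refine eq_of_forall_le_iff fun k => ?_
  by_cases hk : k ≤ 2 * M
  · have := (h.of_dvd (pow_dvd_pow _ hk)).dvd_iff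
    rw [padicValInt_dvd_iff, padicValInt_dvd_iff] at this
    tauto
  · omega

theorem fin4 (m M : ℕ) (hM : ∀ n, ¬ 4 ^ M ∣ MP_b3d406_nt.S m n) :
    {e : ℕ → ℕ | ∃ i j, j < 4 ^ i ∧
      e = fun n => padicValInt 2 (MP_b3d406_nt.S m (4 ^ i * n + j))}.Finite := by
  have : NeZero (4 ^ M) := ⟨by positivity⟩
  let φ : ℤ⟦X⟧ →+* (ZMod (4 ^ M))⟦X⟧ := PowerSeries.map (Int.castRingHom _)
  have hs : φ s ^ (2 * M) = 0 := by
    have h1 : s = 2 * (X * Lib.helper11.Mahler.geo ℤ 1) := by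
      rw [s, r]
      linear_combination MP_918176_nt.g1
    have h2 : ((4 ^ M : ℕ) : (ZMod (4 ^ M))⟦X⟧) = 0 := by
      rw [← map_natCast (C : ZMod (4 ^ M) →+* _), ZMod.natCast_self, map_zero]
    push_cast at h2
    rw [h1, map_mul, map_ofNat, mul_pow, pow_mul, show (2 : (ZMod (4 ^ M))⟦X⟧) ^ 2 = 4 by norm_num,
      h2, zero_mul]
  have hi : IsIntegral (ZMod (4 ^ M)) (φ s) :=
    ⟨Polynomial.X ^ (2 * M), Polynomial.monic_X_pow _, by simpa using hs⟩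
  have := Algebra.finite_adjoin_simple_of_isIntegral hi
  have : Finite (Algebra.adjoin (ZMod (4 ^ M)) {φ s}) := Module.finite_of_finite (ZMod (4 ^ M))
  refine (Set.finite_range fun (t : Algebra.adjoin (ZMod (4 ^ M)) {φ s}) (n : ℕ) =>
    padicValInt 2 ((coeff n (t.1 * φ (MP_53b42b_nt.HH m (n + 1)))).val : ℤ)).subset ?_
  rintro _ ⟨i, j, hj, rfl⟩
  obtain ⟨f, hf, h⟩ := all_st m (2 * i) j (by rwa [pow_mul])
  have hf' : φ f ∈ Algebra.adjoin (ZMod (4 ^ M)) {φ s} := by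
    have : B ≤ (Algebra.adjoin (ZMod (4 ^ M)) {φ s}).toSubring.comap φ :=
      Subring.closure_le.mpr (by rintro _ rfl; exact Algebra.subset_adjoin rfl)
    exact this hf
  refine ⟨⟨_, hf'⟩, funext fun n => (val_congr M _ _ ?_ (hM _)).symm⟩
  rw [st_S m j i n f h, ← map_mul, coeff_map, eq_intCast, ZMod.val_intCast]
  push_cast
  exact (Int.mod_modEq _ _).symm

lemma k42 (v : ℕ → ℕ) (h : {e : ℕ → ℕ | ∃ i j, j < 4 ^ i ∧ e = fun n => v (4 ^ i * n + j)}.Finite) :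
    {e : ℕ → ℕ | ∃ i j, j < 2 ^ i ∧ e = fun n => v (2 ^ i * n + j)}.Finite := by
  refine ((h.union (h.image fun e n => e (2 * n))).union (h.image fun e n => e (2 * n + 1))).subset ?_
  rintro _ ⟨i, j, hj, rfl⟩
  obtain ⟨k, rfl | rfl⟩ := Nat.even_or_odd' i
  · exact .inl (.inl ⟨k, j, by rwa [pow_mul] at hj, by rw [pow_mul]; rfl⟩)
  · rw [pow_succ, pow_mul, show 2 ^ 2 = 4 from rfl] at *
    by_cases c : j < 4 ^ k
    · exact .inl (.inr ⟨_, ⟨k, j, c, rfl⟩, funext fun n => by dsimp only; congr 1; ring⟩)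
    · refine .inr ⟨_, ⟨k, j - 4 ^ k, by omega, rfl⟩, funext fun n => ?_⟩
      dsimp only
      congr 1
      rw [mul_add, mul_one, mul_assoc]; omega

theorem two (m : ℕ) (hm : 0 < m) :
    ((∃ B, ∀ n, padicValInt 2 (MP_b3d406_nt.S m n) ≤ B) ↔ m % 8 ≠ 6) ∧
    ({e : ℕ → ℕ | ∃ i j, j < 2 ^ i ∧
      e = fun n => padicValInt 2 (MP_b3d406_nt.S m (2 ^ i * n + j))}.Finite ↔ m % 8 ≠ 6) := by
  have a : (∃ B, ∀ n, padicValInt 2 (MP_b3d406_nt.S m n) ≤ B) → m % 8 ≠ 6 := by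
    rintro ⟨B, hB⟩ h6
    obtain ⟨n, hn⟩ := MP_53b42b_nt.main m h6 (B + 1)
    have : ((2 : ℕ) : ℤ) ^ (B + 1) ∣ MP_b3d406_nt.S m n :=
      (pow_dvd_pow_of_dvd (by norm_num) _).trans hn
    rw [padicValInt_dvd_iff] at this
    have := hB n
    have := S_ne m n hm
    omega
  have b : {e : ℕ → ℕ | ∃ i j, j < 2 ^ i ∧
      e = fun n => padicValInt 2 (MP_b3d406_nt.S m (2 ^ i * n + j))}.Finite →
      ∃ B, ∀ n, padicValInt 2 (MP_b3d406_nt.S m n) ≤ B := fun h => by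
    obtain ⟨B, hB⟩ := (h.image fun e => e 0).bddAbove
    exact ⟨B, fun n => hB ⟨_, ⟨n, n, Nat.lt_two_pow_self, rfl⟩, by simp⟩⟩
  have c : m % 8 ≠ 6 → {e : ℕ → ℕ | ∃ i j, j < 2 ^ i ∧
      e = fun n => padicValInt 2 (MP_b3d406_nt.S m (2 ^ i * n + j))}.Finite := fun h => by
    obtain ⟨M, hM⟩ := bound m hm h
    exact k42 (fun n => padicValInt 2 (MP_b3d406_nt.S m n)) (fin4 m M fun n d =>
      hM n ((pow_dvd_pow_of_dvd (by norm_num) _).trans d))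
  exact ⟨⟨a, fun h => b (c h)⟩, fun h => a (b h), c⟩

end Pool.Agent.H.MP_9acee6_nt.Two
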